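import Mathlib

/-! Part CLAIMB (weak local reflexivity) of the negative answer to MP_6f6997_an, `2 < p < ∞`. -/

open scoped ENNReal NNReal

set_option maxSynthPendingDepth 3

namespace Pool.Agent.Helper51.BAP

/-- finite net of the unit ball, norming all operators up to the factor `1 - δ` -/
theorem exists_net {X F : Type} [NormedAddCommGroup X] [NormedSpace ℝ X] [NormedAddCommGroup F]
    [NormedSpace ℝ F] [FiniteDimensional ℝ F] (δ : ℝ) (hδ : 0 < δ) :
    ∃ (L : ℕ) (s' : Fin L → F), (∀ l, ‖s' l‖ ≤ 1) ∧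
      ∀ u : F →L[ℝ] X, (1 - δ) * ‖u‖ ≤ ‖fun l => u (s' l)‖ := by
  have : ProperSpace F := FiniteDimensional.proper_real F
  obtain ⟨t, hts, htf, htc⟩ := (isCompact_closedBall (0 : F) 1).finite_cover_balls hδ
  have : Fintype t := htf.fintype
  let e := Fintype.equivFin t
  refine ⟨Fintype.card t, fun l => (e.symm l : F), fun l => ?_, fun u => ?_⟩
  · have := hts (e.symm l).2
    simpa using this
  · have key : ‖u‖ ≤ ‖fun l => u ((e.symm l : t) : F)‖ + δ * ‖u‖ := by
      refine ContinuousLinearMap.opNorm_le_of_unit_norm (by positivity) fun x hx => ?_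
      have hx' : x ∈ Metric.closedBall (0 : F) 1 := by simp [hx]
      obtain ⟨y, hy, hxy⟩ := Set.mem_iUnion₂.1 (htc hx')
      have h1 : ‖u y‖ ≤ ‖fun l => u ((e.symm l : t) : F)‖ := by
        have := norm_le_pi_norm (fun l => u ((e.symm l : t) : F)) (e ⟨y, hy⟩)
        simpa using this
      have h2 : ‖u (x - y)‖ ≤ δ * ‖u‖ := by
        calc ‖u (x - y)‖ ≤ ‖u‖ * ‖x - y‖ := u.le_opNorm _
          _ ≤ ‖u‖ * δ := by
            refine mul_le_mul_of_nonneg_left ?_ (norm_nonneg _)
            rw [← dist_eq_norm]; exact (Metric.mem_ball.1 hxy).le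
          _ = δ * ‖u‖ := mul_comm _ _
      calc ‖u x‖ = ‖u y + u (x - y)‖ := by rw [← map_add]; congr 2; abel
        _ ≤ ‖u y‖ + ‖u (x - y)‖ := norm_add_le _ _
        _ ≤ _ := add_le_add h1 h2
    linarith

/-- the coordinate functionals of a functional on a finite sup-normed power have
total norm at most the norm of the functional -/
theorem sum_norm_single_le {X : Type} [NormedAddCommGroup X] [NormedSpace ℝ X] (L : ℕ)
    (Z : (Fin L → X) →L[ℝ] ℝ) :
    ∑ l, ‖Z.comp (ContinuousLinearMap.single ℝ (fun _ : Fin L => X) l)‖ ≤ ‖Z‖ := by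
  refine le_of_forall_pos_le_add fun ε hε => ?_
  set ζ : Fin L → (X →L[ℝ] ℝ) := fun l =>
    Z.comp (ContinuousLinearMap.single ℝ (fun _ : Fin L => X) l) with hζ
  have hL : (0 : ℝ) < L + 1 := by positivity
  have h1 : ∀ l, ∃ x : X, ‖x‖ ≤ 1 ∧ ‖ζ l‖ - ε / (L + 1) ≤ ζ l x := by
    intro l
    by_contra hcon
    push Not at hcon
    have hb : ‖ζ l‖ ≤ max (‖ζ l‖ - ε / (L + 1)) 0 := by
      refine ContinuousLinearMap.opNorm_le_of_unit_norm (le_max_right _ _) fun x hx => ?_
      refine le_max_of_le_left ?_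
      rw [Real.norm_eq_abs, abs_le]
      constructor
      · have := hcon (-x) (by simp [hx])
        rw [map_neg] at this
        linarith
      · exact (hcon x hx.le).le
    have h0 := hcon 0 (by simp)
    rw [map_zero] at h0
    have hpos : 0 < ε / (L + 1) := div_pos hε hL
    rw [max_eq_left h0.le] at hb
    linarith
  choose x hx hx2 using h1
  have h2 : ∑ l, ζ l (x l) = Z x := by
    have : x = ∑ l, Pi.single l (x l) := (Finset.univ_sum_single x).symm
    conv_rhs => rw [this, map_sum]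
    rfl
  have h3 : Z x ≤ ‖Z‖ := by
    calc Z x ≤ ‖Z x‖ := le_abs_self _
      _ ≤ ‖Z‖ * ‖x‖ := Z.le_opNorm x
      _ ≤ ‖Z‖ * 1 := by
        refine mul_le_mul_of_nonneg_left ?_ (norm_nonneg _)
        exact (pi_norm_le_iff_of_nonneg zero_le_one).2 hx
      _ = ‖Z‖ := mul_one _
  have h4 : ∑ l : Fin L, ε / (L + 1) ≤ ε := by
    rw [Finset.sum_const, Finset.card_univ, Fintype.card_fin, nsmul_eq_mul, mul_div_assoc',
      div_le_iff₀ hL]
    nlinarith
  calc ∑ l, ‖ζ l‖ ≤ ∑ l, (ζ l (x l) + ε / (L + 1)) :=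
        Finset.sum_le_sum fun l _ => by linarith [hx2 l]
    _ = ∑ l, ζ l (x l) + ∑ l : Fin L, ε / (L + 1) := Finset.sum_add_distrib
    _ ≤ ‖Z‖ + ε := by rw [h2]; linarith

theorem claimB {X F : Type} [NormedAddCommGroup X] [NormedSpace ℝ X] [NormedAddCommGroup F]
    [NormedSpace ℝ F] [FiniteDimensional ℝ F] (m : ℕ) (s : Fin m → F)
    (xs : Fin m → (X →L[ℝ] ℝ)) (c : ℝ)
    (hc : ∀ u : F →L[ℝ] X, ‖u‖ ≤ 1 → |∑ k, xs k (u (s k))| ≤ c)
    (R : F →ₗ[ℝ] (X →L[ℝ] ℝ) →ₗ[ℝ] ℝ) (κ : ℝ) (hκ : 0 ≤ κ)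
    (hR : ∀ s x, |R s x| ≤ κ * ‖x‖ * ‖s‖) :
    |∑ k, R (s k) (xs k)| ≤ κ * c := by
  have hc0 : 0 ≤ c := by
    have := hc 0 (by simp)
    exact le_trans (abs_nonneg _) this
  -- the functional `ψ`
  let ψ : (F →L[ℝ] X) →ₗ[ℝ] ℝ :=
    { toFun := fun u => ∑ k, xs k (u (s k))
      map_add' := fun u v => by
        simp only [add_apply, map_add, Finset.sum_add_distrib]
      map_smul' := fun a u => by
        simp only [smul_apply, map_smul, smul_eq_mul, RingHom.id_apply,
          Finset.mul_sum] }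
  have hψ : ∀ u, |ψ u| ≤ c * ‖u‖ := by
    intro u
    rcases eq_or_ne u 0 with rfl | hu
    · simp
    · have hn : 0 < ‖u‖ := norm_pos_iff.2 hu
      have h1 := hc (‖u‖⁻¹ • u) (by rw [norm_smul, norm_inv, norm_norm]; field_simp; exact le_rfl)
      have h2 : ∑ k, xs k ((‖u‖⁻¹ • u) (s k)) = ‖u‖⁻¹ * ψ u := by
        change ψ (‖u‖⁻¹ • u) = _
        rw [map_smul, smul_eq_mul]
      rw [h2, abs_mul, abs_inv, abs_norm] at h1
      rwa [inv_mul_le_iff₀ hn, mul_comm] at h1
  -- main estimate for each `δ`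
  have main : ∀ δ : ℝ, 0 < δ → δ < 1 → (1 - δ) * |∑ k, R (s k) (xs k)| ≤ κ * c := by
    intro δ hδ hδ1
    obtain ⟨L, s', hs', hnet⟩ := exists_net (X := X) (F := F) δ hδ
    let J : (F →L[ℝ] X) →ₗ[ℝ] (Fin L → X) :=
      { toFun := fun u l => u (s' l)
        map_add' := fun u v => rfl
        map_smul' := fun a u => rfl }
    have hJ : ∀ u, (1 - δ) * ‖u‖ ≤ ‖J u‖ := hnet
    have hJinj : Function.Injective J := by
      rw [← LinearMap.ker_eq_bot, LinearMap.ker_eq_bot']
      intro u hu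
      have := hJ u
      rw [hu, norm_zero] at this
      have h0 : ‖u‖ ≤ 0 := by nlinarith [norm_nonneg u]
      exact norm_le_zero_iff.1 h0
    let e := LinearEquiv.ofInjective J hJinj
    let g : LinearMap.range J →ₗ[ℝ] ℝ := ψ ∘ₗ (e.symm : LinearMap.range J →ₗ[ℝ] (F →L[ℝ] X))
    have hg : ∀ y : LinearMap.range J, ‖g y‖ ≤ (c / (1 - δ)) * ‖y‖ := by
      intro y
      have h1 := hψ (e.symm y)
      have h2 := hJ (e.symm y)
      have h3 : J (e.symm y) = (y : Fin L → X) := by
        have := LinearEquiv.ofInjective_apply (f := J) (h := hJinj) (e.symm y)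
        rw [← this]
        change ((e (e.symm y) : LinearMap.range J) : Fin L → X) = _
        rw [LinearEquiv.apply_symm_apply]
      rw [h3] at h2
      have hδ' : 0 < 1 - δ := by linarith
      change |ψ (e.symm y)| ≤ _
      calc |ψ (e.symm y)| ≤ c * ‖e.symm y‖ := h1
        _ ≤ c * (‖y‖ / (1 - δ)) := by
          refine mul_le_mul_of_nonneg_left ?_ hc0
          rw [le_div_iff₀ hδ', mul_comm]; exact h2
        _ = _ := by ring
    let g' : StrongDual ℝ (LinearMap.range J) := g.mkContinuous (c / (1 - δ)) hg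
    obtain ⟨Z, hZ1, hZ2⟩ := exists_extension_norm_eq (LinearMap.range J) g'
    have hδ' : 0 < 1 - δ := by linarith
    have hZn : ‖Z‖ ≤ c / (1 - δ) := by
      rw [hZ2]
      exact g.mkContinuous_norm_le (by positivity) hg
    have hZJ : ∀ u, Z (J u) = ψ u := by
      intro u
      have h1 := hZ1 (e u)
      have h2 : ((e u : LinearMap.range J) : Fin L → X) = J u :=
        LinearEquiv.ofInjective_apply (f := J) (h := hJinj) u
      rw [h2] at h1
      rw [h1]
      change ψ (e.symm (e u)) = _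
      rw [LinearEquiv.symm_apply_apply]
    set ζ : Fin L → (X →L[ℝ] ℝ) := fun l =>
      Z.comp (ContinuousLinearMap.single ℝ (fun _ : Fin L => X) l) with hζ
    have hZsum : ∀ x : Fin L → X, Z x = ∑ l, ζ l (x l) := by
      intro x
      have : x = ∑ l, Pi.single l (x l) := (Finset.univ_sum_single x).symm
      conv_lhs => rw [this, map_sum]
      rfl
    -- identity of tensors
    have hten : ∀ φ : F →L[ℝ] ℝ, ∑ k, φ (s k) • xs k = ∑ l, φ (s' l) • ζ l := by
      intro φ
      ext x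
      have h1 := hZJ (φ.smulRight x)
      rw [hZsum] at h1
      have h2 : ψ (φ.smulRight x) = ∑ k, φ (s k) * xs k x := by
        change ∑ k, xs k ((φ.smulRight x) (s k)) = _
        refine Finset.sum_congr rfl fun k _ => ?_
        rw [ContinuousLinearMap.smulRight_apply, map_smul, smul_eq_mul]
      have h3 : ∑ l, ζ l (J (φ.smulRight x) l) = ∑ l, φ (s' l) * ζ l x := by
        refine Finset.sum_congr rfl fun l _ => ?_
        change ζ l ((φ.smulRight x) (s' l)) = _
        rw [ContinuousLinearMap.smulRight_apply, map_smul, smul_eq_mul]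
      rw [h2, h3] at h1
      simp only [sum_apply, smul_apply, smul_eq_mul]
      exact h1.symm
    let bs := Module.finBasis ℝ F
    have hexp : ∀ (n : ℕ) (v : Fin n → F) (x : Fin n → (X →L[ℝ] ℝ)),
        ∑ k, R (v k) (x k) = ∑ i, R (bs i) (∑ k, (bs.coord i (v k)) • x k) := by
      intro n v x
      have h1 : ∀ k, R (v k) (x k) = ∑ i, bs.coord i (v k) * R (bs i) (x k) := by
        intro k
        conv_lhs => rw [← bs.sum_repr (v k), map_sum, LinearMap.sum_apply]
        refine Finset.sum_congr rfl fun i _ => ?_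
        rw [map_smul, LinearMap.smul_apply, smul_eq_mul, Module.Basis.coord_apply]
      simp only [h1, map_sum, map_smul, smul_eq_mul]
      exact Finset.sum_comm
    have heq : ∑ k, R (s k) (xs k) = ∑ l, R (s' l) (ζ l) := by
      rw [hexp m s xs, hexp L s' ζ]
      refine Finset.sum_congr rfl fun i _ => ?_
      exact congrArg (R (bs i)) (hten (LinearMap.toContinuousLinearMap (bs.coord i)))
    have hb : |∑ k, R (s k) (xs k)| ≤ κ * (c / (1 - δ)) := by
      rw [heq]
      calc |∑ l, R (s' l) (ζ l)| ≤ ∑ l, |R (s' l) (ζ l)| := Finset.abs_sum_le_sum_abs _ _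
        _ ≤ ∑ l, κ * ‖ζ l‖ := by
          refine Finset.sum_le_sum fun l _ => (hR _ _).trans ?_
          have : κ * ‖ζ l‖ * ‖s' l‖ ≤ κ * ‖ζ l‖ * 1 :=
            mul_le_mul_of_nonneg_left (hs' l) (mul_nonneg hκ (norm_nonneg _))
          linarith
        _ = κ * ∑ l, ‖ζ l‖ := by rw [Finset.mul_sum]
        _ ≤ κ * ‖Z‖ := mul_le_mul_of_nonneg_left (sum_norm_single_le L Z) hκ
        _ ≤ κ * (c / (1 - δ)) := mul_le_mul_of_nonneg_left hZn hκ
    calc (1 - δ) * |∑ k, R (s k) (xs k)| ≤ (1 - δ) * (κ * (c / (1 - δ))) :=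
          mul_le_mul_of_nonneg_left hb hδ'.le
      _ = κ * c := by field_simp
  -- let `δ → 0`
  set T := |∑ k, R (s k) (xs k)| with hT
  have hT0 : 0 ≤ T := abs_nonneg _
  refine le_of_forall_pos_le_add fun ε hε => ?_
  set δ := min (1 / 2) (ε / (T + 1)) with hδdef
  have hT1 : 0 < T + 1 := by linarith
  have hδ : 0 < δ := lt_min (by norm_num) (div_pos hε hT1)
  have hδ1 : δ < 1 := (min_le_left _ _).trans_lt (by norm_num)
  have h := main δ hδ hδ1
  have h2 : δ * T ≤ ε := by
    calc δ * T ≤ (ε / (T + 1)) * T := mul_le_mul_of_nonneg_right (min_le_right _ _) hT0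
      _ = ε * (T / (T + 1)) := by ring
      _ ≤ ε * 1 := mul_le_mul_of_nonneg_left ((div_le_one hT1).2 (by linarith)) hε.le
      _ = ε := mul_one _
  nlinarith

end Pool.Agent.Helper51.BAP
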