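import Mathlib

/-! Part PIETSCH (Pietsch domination with finitely many points) of the negative answer to
MP_6f6997_an, `2 < p < ∞`. -/

open scoped ENNReal NNReal

set_option maxSynthPendingDepth 3

namespace Pool.Agent.Helper51.BAP

theorem pstep1 {X : Type} [NormedAddCommGroup X] [NormedSpace ℝ X] (E : Submodule ℝ X)
    (p q : ℝ) (hpq : p.HolderConjugate q) (Λ : (X →L[ℝ] E) →ₗ[ℝ] ℝ)
    (hΛ : ∀ (n : ℕ) (xs : Fin n → (X →L[ℝ] ℝ)) (ys : Fin n → E), ∑ k, ‖xs k‖ ^ p ≤ 1 →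
      (∀ f : X →L[ℝ] ℝ, ‖f‖ ≤ 1 → ∑ k, |f (ys k)| ^ q ≤ 1) →
      Λ (∑ k, (xs k).smulRight (ys k)) ≤ 1)
    (n : ℕ) (x : Fin n → (X →L[ℝ] ℝ)) (y : Fin n → E) (hx : ∀ k, ‖x k‖ ≤ 1)
    (hy : ∀ f : X →L[ℝ] ℝ, ‖f‖ ≤ 1 → ∑ k, |f (y k)| ^ q ≤ 1) :
    ∑ k, |Λ ((x k).smulRight (y k))| ^ q ≤ 1 := by
  have hp0 : 0 < p := hpq.pos
  have hq0 : 0 < q := hpq.symm.pos
  set a : Fin n → ℝ := fun k => Λ ((x k).smulRight (y k)) with ha
  set A : ℝ := ∑ k, |a k| ^ q with hA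
  change A ≤ 1
  by_contra hcon
  push Not at hcon
  have hA0 : 0 < A := by linarith
  have hq1 : 0 < q - 1 := hpq.symm.sub_one_pos
  set c : ℝ := A ^ (-(1 / p)) with hc
  have hc0 : 0 < c := Real.rpow_pos_of_pos hA0 _
  let t : Fin n → ℝ := fun k => c * ((SignType.sign (a k) : ℝ) * |a k| ^ (q - 1))
  have ht : ∀ k, |t k| ≤ c * |a k| ^ (q - 1) := by
    intro k
    have h1 : |(SignType.sign (a k) : ℝ)| ≤ 1 := by
      rcases lt_trichotomy (a k) 0 with h | h | h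
      · simp [sign_neg h]
      · simp [h]
      · simp [sign_pos h]
    have h2 : 0 ≤ |a k| ^ (q - 1) := by positivity
    rw [abs_mul, abs_mul, abs_of_pos hc0, abs_of_nonneg h2]
    refine mul_le_mul_of_nonneg_left ?_ hc0.le
    calc _ ≤ 1 * |a k| ^ (q - 1) := mul_le_mul_of_nonneg_right h1 h2
      _ = _ := one_mul _
  have hta : ∀ k, t k * a k = c * |a k| ^ q := by
    intro k
    have h1 : (SignType.sign (a k) : ℝ) * a k = |a k| := sign_mul_self (a k)
    have h2 : |a k| ^ (q - 1) * |a k| = |a k| ^ q := by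
      rcases eq_or_ne (a k) 0 with h | h
      · rw [h, abs_zero, mul_zero, Real.zero_rpow hq0.ne']
      · rw [← Real.rpow_add_one (abs_ne_zero.2 h)]
        congr 1; ring
    calc t k * a k = c * (|a k| ^ (q - 1) * ((SignType.sign (a k) : ℝ) * a k)) := by
          simp only [t]; ring
      _ = _ := by rw [h1, h2]
  have h1 : ∑ k, ‖t k • x k‖ ^ p ≤ 1 := by
    have h2 : ∀ k, ‖t k • x k‖ ^ p ≤ A⁻¹ * |a k| ^ q := by
      intro k
      have h3 : ‖t k • x k‖ ≤ c * |a k| ^ (q - 1) := by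
        rw [norm_smul, Real.norm_eq_abs]
        calc |t k| * ‖x k‖ ≤ |t k| * 1 := mul_le_mul_of_nonneg_left (hx k) (abs_nonneg _)
          _ ≤ _ := by rw [mul_one]; exact ht k
      calc ‖t k • x k‖ ^ p ≤ (c * |a k| ^ (q - 1)) ^ p :=
            Real.rpow_le_rpow (norm_nonneg _) h3 hp0.le
        _ = c ^ p * (|a k| ^ (q - 1)) ^ p := Real.mul_rpow hc0.le (by positivity)
        _ = A⁻¹ * |a k| ^ q := by
          rw [← Real.rpow_mul (abs_nonneg _), hpq.symm.sub_one_mul_conj, hc,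
            ← Real.rpow_mul hA0.le]
          congr 1
          rw [neg_mul, one_div, inv_mul_cancel₀ hp0.ne', Real.rpow_neg_one]
    calc ∑ k, ‖t k • x k‖ ^ p ≤ ∑ k, A⁻¹ * |a k| ^ q := Finset.sum_le_sum fun k _ => h2 k
      _ = A⁻¹ * A := by rw [← Finset.mul_sum]
      _ = 1 := inv_mul_cancel₀ hA0.ne'
      _ ≤ 1 := le_rfl
  have h2 := hΛ n (fun k => t k • x k) y h1 hy
  have h3 : Λ (∑ k, (t k • x k).smulRight (y k)) = c * A := by
    rw [map_sum, hA, Finset.mul_sum]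
    refine Finset.sum_congr rfl fun k _ => ?_
    rw [← hta k]
    have : (t k • x k).smulRight (y k) = t k • (x k).smulRight (y k) := by
      ext z
      simp [smul_smul]
    rw [this, map_smul, smul_eq_mul]
  rw [h3] at h2
  have h4 : c * A = A ^ (1 / q) := by
    rw [hc]
    conv_lhs => rw [← Real.rpow_one A]
    rw [← Real.rpow_mul hA0.le, ← Real.rpow_add hA0]
    congr 1
    have := hpq.inv_add_inv_eq_one
    rw [one_div, one_div]
    linarith
  rw [h4] at h2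
  have h5 : (1 : ℝ) < A ^ (1 / q) := Real.one_lt_rpow hcon (by positivity)
  linarith

theorem pstep1' {X : Type} [NormedAddCommGroup X] [NormedSpace ℝ X] (E : Submodule ℝ X)
    (p q : ℝ) (hpq : p.HolderConjugate q) (Λ : (X →L[ℝ] E) →ₗ[ℝ] ℝ)
    (hΛ : ∀ (n : ℕ) (xs : Fin n → (X →L[ℝ] ℝ)) (ys : Fin n → E), ∑ k, ‖xs k‖ ^ p ≤ 1 →
      (∀ f : X →L[ℝ] ℝ, ‖f‖ ≤ 1 → ∑ k, |f (ys k)| ^ q ≤ 1) →
      Λ (∑ k, (xs k).smulRight (ys k)) ≤ 1)
    {ι : Type} [Fintype ι] (x : ι → (X →L[ℝ] ℝ)) (y : ι → E) (hx : ∀ k, ‖x k‖ ≤ 1) (W : ℝ)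
    (hy : ∀ f : X →L[ℝ] ℝ, ‖f‖ ≤ 1 → ∑ k, |f (y k)| ^ q ≤ W) :
    ∑ k, |Λ ((x k).smulRight (y k))| ^ q ≤ W := by
  have hq0 : 0 < q := hpq.symm.pos
  have hW0 : 0 ≤ W := le_trans (by positivity) (hy 0 (by simp))
  refine le_of_forall_pos_le_add fun ε hε => ?_
  set V := W + ε with hV
  have hV0 : 0 < V := by linarith
  set s : ℝ := V ^ (-(1 / q)) with hs
  have hs0 : 0 < s := Real.rpow_pos_of_pos hV0 _
  have hsq : s ^ q = V⁻¹ := by
    rw [hs, ← Real.rpow_mul hV0.le, neg_mul, one_div, inv_mul_cancel₀ hq0.ne', Real.rpow_neg_one]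
  let e := Fintype.equivFin ι
  have h1 := pstep1 E p q hpq Λ hΛ (Fintype.card ι) (fun k => x (e.symm k))
    (fun k => s • y (e.symm k)) (fun k => hx _) (fun f hf => by
      have h2 : ∀ k, |f ((s • y (e.symm k) : E) : X)| ^ q = V⁻¹ * |f (y (e.symm k))| ^ q := by
        intro k
        rw [Submodule.coe_smul, map_smul, smul_eq_mul, abs_mul, abs_of_pos hs0,
          Real.mul_rpow hs0.le (abs_nonneg _), hsq]
      rw [Finset.sum_congr rfl fun k _ => h2 k, ← Finset.mul_sum,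
        Equiv.sum_comp e.symm (fun k => |f (y k)| ^ q)]
      calc V⁻¹ * ∑ k, |f (y k)| ^ q ≤ V⁻¹ * V :=
            mul_le_mul_of_nonneg_left ((hy f hf).trans (by linarith)) (by positivity)
        _ = 1 := inv_mul_cancel₀ hV0.ne')
  have h3 : ∀ k, |Λ ((x (e.symm k)).smulRight (s • y (e.symm k)))| ^ q =
      V⁻¹ * |Λ ((x (e.symm k)).smulRight (y (e.symm k)))| ^ q := by
    intro k
    have : (x (e.symm k)).smulRight (s • y (e.symm k)) =
        s • (x (e.symm k)).smulRight (y (e.symm k)) := by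
      ext z
      simp only [ContinuousLinearMap.smulRight_apply, smul_apply, Submodule.coe_smul]
      exact smul_comm _ _ _
    rw [this, map_smul, smul_eq_mul, abs_mul, abs_of_pos hs0,
      Real.mul_rpow hs0.le (abs_nonneg _), hsq]
  rw [Finset.sum_congr rfl fun k _ => h3 k, ← Finset.mul_sum,
    Equiv.sum_comp e.symm (fun k => |Λ ((x k).smulRight (y k))| ^ q)] at h1
  rwa [inv_mul_le_iff₀ hV0, mul_one] at h1

theorem pnet {X : Type} [NormedAddCommGroup X] [NormedSpace ℝ X] (E : Submodule ℝ X)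
    [FiniteDimensional ℝ E] (q : ℝ) (hq : 1 ≤ q) (δ : ℝ) (hδ : 0 < δ) (hδ1 : δ < 1) :
    ∃ (M : ℕ) (f : Fin (M + 1) → (X →L[ℝ] ℝ)), (∀ j, ‖f j‖ ≤ 1) ∧
      ∀ (ι : Type) [Fintype ι] (y : ι → E) (C : ℝ),
        (∀ j, ∑ k, |f j (y k)| ^ q ≤ C) →
        ∀ g : X →L[ℝ] ℝ, ‖g‖ ≤ 1 → (1 - δ) ^ q * ∑ k, |g (y k)| ^ q ≤ C := by
  have hq0 : 0 < q := by linarith
  have : ProperSpace (E →L[ℝ] ℝ) := FiniteDimensional.proper_real _
  obtain ⟨t, hts, htf, htc⟩ :=
    (isCompact_closedBall (0 : E →L[ℝ] ℝ) 1).finite_cover_balls hδ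
  have hext : ∀ g : E →L[ℝ] ℝ, ∃ f : X →L[ℝ] ℝ, (∀ x : E, f x = g x) ∧ ‖f‖ = ‖g‖ :=
    fun g => exists_extension_norm_eq E g
  choose ex hex1 hex2 using hext
  -- the net as a finset of functionals on `X`
  have htne : t.Nonempty := by
    have : (0 : E →L[ℝ] ℝ) ∈ ⋃ x ∈ t, Metric.ball x δ := htc (by simp)
    obtain ⟨y, hy, _⟩ := Set.mem_iUnion₂.1 this
    exact ⟨y, hy⟩
  have : Fintype t := htf.fintype
  have : Nonempty t := htne.to_subtype
  obtain ⟨M, hM⟩ : ∃ M, Fintype.card t = M + 1 :=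
    ⟨Fintype.card t - 1, (Nat.succ_pred_eq_of_pos Fintype.card_pos).symm⟩
  let e : t ≃ Fin (M + 1) := Fintype.equivFinOfCardEq hM
  refine ⟨M, fun j => ex (e.symm j : E →L[ℝ] ℝ), fun j => ?_, ?_⟩
  · rw [hex2]
    have := hts (e.symm j).2
    simpa using this
  intro ι _ y C hC
  have hC0 : 0 ≤ C := le_trans (by positivity) (hC 0)
  let N : (X →L[ℝ] ℝ) → ℝ := fun g => (∑ k, |g (y k)| ^ q) ^ (1 / q)
  have hN0 : ∀ g, 0 ≤ N g := fun g => by positivity
  let S : Set ℝ := {r | ∃ g : X →L[ℝ] ℝ, ‖g‖ ≤ 1 ∧ N g = r}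
  have hSne : S.Nonempty := ⟨N 0, 0, by simp, rfl⟩
  have hSb : BddAbove S := by
    refine ⟨(∑ k, ‖y k‖ ^ q) ^ (1 / q), ?_⟩
    rintro r ⟨g, hg, rfl⟩
    refine Real.rpow_le_rpow (by positivity) ?_ (by positivity)
    refine Finset.sum_le_sum fun k _ => ?_
    refine Real.rpow_le_rpow (abs_nonneg _) ?_ hq0.le
    calc |g (y k)| ≤ ‖g‖ * ‖(y k : X)‖ := g.le_opNorm _
      _ ≤ 1 * ‖(y k : X)‖ := mul_le_mul_of_nonneg_right hg (norm_nonneg _)
      _ = ‖y k‖ := by rw [one_mul]; rfl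
  have hkey : ∀ g : X →L[ℝ] ℝ, ‖g‖ ≤ 1 → N g ≤ C ^ (1 / q) + δ * sSup S := by
    intro g hg
    have hg' : g.comp E.subtypeL ∈ Metric.closedBall (0 : E →L[ℝ] ℝ) 1 := by
      rw [mem_closedBall_zero_iff]
      refine ContinuousLinearMap.opNorm_le_bound _ zero_le_one fun z => ?_
      calc ‖g (z : X)‖ ≤ ‖g‖ * ‖(z : X)‖ := g.le_opNorm _
        _ ≤ 1 * ‖(z : X)‖ := mul_le_mul_of_nonneg_right hg (norm_nonneg _)
    obtain ⟨g0, hg0, hgg⟩ := Set.mem_iUnion₂.1 (htc hg')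
    set h : X →L[ℝ] ℝ := ex (g.comp E.subtypeL - g0) with hh
    have hhn : ‖h‖ ≤ δ := by
      rw [hh, hex2, ← dist_eq_norm]
      exact (Metric.mem_ball.1 hgg).le
    have hh1 : ∀ z : E, g z = ex g0 z + h z := by
      intro z
      rw [hh, hex1, hex1]
      simp
    have h1 : N g ≤ N (ex g0) + N h := by
      have := Real.Lp_add_le Finset.univ (fun k => ex g0 (y k)) (fun k => h (y k)) hq
      simp only [← hh1] at this
      exact this
    have h2 : N (ex g0) ≤ C ^ (1 / q) := by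
      refine Real.rpow_le_rpow (by positivity) ?_ (by positivity)
      have := hC (e ⟨g0, hg0⟩)
      simpa using this
    have h3 : N h = δ * N (δ⁻¹ • h) := by
      have h4 : ∀ k, |(δ⁻¹ • h) (y k : X)| ^ q = (δ ^ q)⁻¹ * |h (y k)| ^ q := by
        intro k
        rw [smul_apply, smul_eq_mul, abs_mul, abs_inv, abs_of_pos hδ,
          Real.mul_rpow (by positivity) (abs_nonneg _), Real.inv_rpow hδ.le]
      have hδq : 0 < δ ^ q := Real.rpow_pos_of_pos hδ _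
      simp only [N]
      rw [Finset.sum_congr rfl fun k _ => h4 k, ← Finset.mul_sum,
        Real.mul_rpow (by positivity) (by positivity), Real.inv_rpow hδq.le,
        ← Real.rpow_mul hδ.le, one_div, mul_inv_cancel₀ hq0.ne', Real.rpow_one, ← mul_assoc,
        mul_inv_cancel₀ hδ.ne', one_mul]
    have h5 : N (δ⁻¹ • h) ≤ sSup S := by
      refine le_csSup hSb ⟨_, ?_, rfl⟩
      rw [norm_smul, norm_inv, Real.norm_eq_abs, abs_of_pos hδ, inv_mul_le_iff₀ hδ, mul_one]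
      exact hhn
    calc N g ≤ N (ex g0) + N h := h1
      _ ≤ C ^ (1 / q) + δ * sSup S := by
        rw [h3]
        exact add_le_add h2 (mul_le_mul_of_nonneg_left h5 hδ.le)
  have hS : sSup S ≤ C ^ (1 / q) + δ * sSup S := by
    refine csSup_le hSne ?_
    rintro r ⟨g, hg, rfl⟩
    exact hkey g hg
  intro g hg
  have h1 : N g ≤ sSup S := le_csSup hSb ⟨g, hg, rfl⟩
  have hδ' : 0 < 1 - δ := by linarith
  have h2 : (1 - δ) * N g ≤ C ^ (1 / q) := by nlinarith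
  have h3 : ((1 - δ) * N g) ^ q ≤ (C ^ (1 / q)) ^ q :=
    Real.rpow_le_rpow (mul_nonneg hδ'.le (hN0 g)) h2 hq0.le
  rw [Real.mul_rpow hδ'.le (hN0 g), ← Real.rpow_mul hC0, one_div, inv_mul_cancel₀ hq0.ne',
    Real.rpow_one] at h3
  have h4 : N g ^ q = ∑ k, |g (y k)| ^ q := by
    simp only [N]
    rw [← Real.rpow_mul (by positivity), one_div, inv_mul_cancel₀ hq0.ne', Real.rpow_one]
  rwa [h4] at h3

theorem pietsch (p q : ℝ) (hpq : p.HolderConjugate q) {X : Type} [NormedAddCommGroup X]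
    [NormedSpace ℝ X] (E : Submodule ℝ X) [FiniteDimensional ℝ E]
    (Λ : (X →L[ℝ] E) →ₗ[ℝ] ℝ)
    (hΛ : ∀ (n : ℕ) (xs : Fin n → (X →L[ℝ] ℝ)) (ys : Fin n → E), ∑ k, ‖xs k‖ ^ p ≤ 1 →
      (∀ f : X →L[ℝ] ℝ, ‖f‖ ≤ 1 → ∑ k, |f (ys k)| ^ q ≤ 1) →
      Λ (∑ k, (xs k).smulRight (ys k)) ≤ 1)
    (ε : ℝ) (hε : 0 < ε) :
    ∃ (M : ℕ) (f : Fin M → (X →L[ℝ] ℝ)) (w : Fin M → ℝ), (∀ j, ‖f j‖ ≤ 1) ∧ (∀ j, 0 ≤ w j) ∧
      ∑ j, w j = 1 ∧ ∀ (x : X →L[ℝ] ℝ) (y : E),
        |Λ (x.smulRight y)| ≤ (1 + ε) * ‖x‖ * (∑ j, w j * |f j y| ^ q) ^ (1 / q) := by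
  have hq : 1 < q := hpq.symm.lt
  have hq0 : 0 < q := by linarith
  set δ : ℝ := ε / (1 + ε) with hδdef
  have h1ε : 0 < 1 + ε := by linarith
  have hδ : 0 < δ := div_pos hε h1ε
  have hδ1 : δ < 1 := (div_lt_one h1ε).2 (by linarith)
  have hδe : 1 - δ = (1 + ε)⁻¹ := by rw [hδdef]; field_simp; ring
  have hδ' : 0 < 1 - δ := by linarith
  obtain ⟨M, f, hf, hnet⟩ := pnet E q hq.le δ hδ hδ1
  set D : ℝ := (1 - δ) ^ q with hD
  have hD0 : 0 < D := Real.rpow_pos_of_pos hδ' _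
  let v : (X →L[ℝ] ℝ) → E → (Fin (M + 1) → ℝ) := fun x y j =>
    |f j y| ^ q - D * |Λ (x.smulRight y)| ^ q
  have hscale : ∀ (t : ℝ), 0 ≤ t → ∀ x y, v x (t ^ (1 / q) • y) = t • v x y := by
    intro t ht x y
    have htq : (t ^ (1 / q)) ^ q = t := by
      rw [← Real.rpow_mul ht, one_div, inv_mul_cancel₀ hq0.ne', Real.rpow_one]
    have ht' : 0 ≤ t ^ (1 / q) := Real.rpow_nonneg ht _
    funext j
    have h1 : x.smulRight (t ^ (1 / q) • y) = t ^ (1 / q) • x.smulRight y := by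
      ext z
      simp only [ContinuousLinearMap.smulRight_apply, smul_apply, Submodule.coe_smul]
      exact smul_comm _ _ _
    simp only [v, Pi.smul_apply, smul_eq_mul]
    rw [h1, map_smul, smul_eq_mul, Submodule.coe_smul, map_smul, smul_eq_mul, abs_mul, abs_mul,
      abs_of_nonneg ht', Real.mul_rpow ht' (abs_nonneg _), Real.mul_rpow ht' (abs_nonneg _), htq]
    ring
  let C : Set (Fin (M + 1) → ℝ) := {u | ∃ (ι : Type) (_ : Fintype ι) (x : ι → (X →L[ℝ] ℝ))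
    (y : ι → E), (∀ k, ‖x k‖ ≤ 1) ∧ u = ∑ k, v (x k) (y k)}
  have hCconv : Convex ℝ C := by
    rintro _ ⟨ι, _, x, y, hx, rfl⟩ _ ⟨ι', _, x', y', hx', rfl⟩ a b ha hb _
    refine ⟨ι ⊕ ι', inferInstance, Sum.elim x x',
      Sum.elim (fun k => a ^ (1 / q) • y k) (fun k => b ^ (1 / q) • y' k), ?_, ?_⟩
    · rintro (k | k)
      · exact hx k
      · exact hx' k
    · rw [Fintype.sum_sum_type]
      simp only [Sum.elim_inl, Sum.elim_inr, hscale a ha, hscale b hb, ← Finset.smul_sum]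
  let O : Set (Fin (M + 1) → ℝ) := {u | ∀ j, u j < 0}
  have hOopen : IsOpen O := by
    have : O = ⋂ j, {u : Fin (M + 1) → ℝ | u j < 0} := by ext u; simp [O]
    rw [this]
    exact isOpen_iInter_of_finite fun j => isOpen_lt (continuous_apply j) continuous_const
  have hOconv : Convex ℝ O := by
    intro u hu u' hu' a b ha hb hab j
    have h1 := hu j
    have h2 := hu' j
    simp only [Pi.add_apply, Pi.smul_apply, smul_eq_mul]
    rcases eq_or_lt_of_le ha with h | h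
    · have : b = 1 := by linarith
      rw [← h, this]; linarith
    · nlinarith
  have hdisj : Disjoint O C := by
    rw [Set.disjoint_left]
    rintro _ hu ⟨ι, _, x, y, hx, rfl⟩
    obtain ⟨j0, hj0⟩ := Finite.exists_max (fun j => ∑ k, |f j (y k)| ^ q)
    have h1 := hnet ι y (∑ k, |f j0 (y k)| ^ q) hj0
    have h2 := pstep1' E p q hpq Λ hΛ x y hx ((∑ k, |f j0 (y k)| ^ q) / D) (fun g hg => by
      rw [le_div_iff₀ hD0, mul_comm]; exact h1 g hg)
    rw [le_div_iff₀ hD0] at h2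
    have h3 := hu j0
    simp only [Finset.sum_apply, v, Finset.sum_sub_distrib, ← Finset.mul_sum] at h3
    linarith
  obtain ⟨φ, u, h1, h2⟩ := geometric_hahn_banach_open hOconv hOopen hCconv hdisj
  have h0C : (0 : Fin (M + 1) → ℝ) ∈ C := ⟨Empty, inferInstance, Empty.elim, Empty.elim,
    fun k => k.elim, by simp⟩
  have hu0 : u ≤ 0 := by have := h2 0 h0C; rwa [map_zero] at this
  have hφ : ∀ z : Fin (M + 1) → ℝ, φ z = ∑ j, z j * φ (Pi.single j 1) := by
    intro z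
    conv_lhs => rw [← Finset.univ_sum_single z, map_sum]
    refine Finset.sum_congr rfl fun j _ => ?_
    have : (Pi.single j (z j) : Fin (M + 1) → ℝ) = z j • Pi.single j 1 := by
      rw [← Pi.single_smul]; simp
    rw [this, map_smul, smul_eq_mul]
  set c : Fin (M + 1) → ℝ := fun j => φ (Pi.single j 1) with hc
  set T : ℝ := ∑ j, c j with hT
  have hTpos : ∀ ε : ℝ, 0 < ε → -(ε * T) < u := by
    intro ε hε
    have := h1 (fun _ => -ε) (fun j => by simpa using hε)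
    rw [hφ, ← Finset.mul_sum] at this
    have h3 : -ε * T = -(ε * T) := by ring
    rwa [← h3]
  have hT0 : 0 < T := by
    have := hTpos 1 one_pos
    linarith
  have hu00 : 0 ≤ u := by
    by_contra hneg
    push Not at hneg
    have := hTpos (-u / T) (div_pos (by linarith) hT0)
    rw [div_mul_cancel₀ _ hT0.ne'] at this
    linarith
  have hcnn : ∀ j, 0 ≤ c j := by
    intro j
    by_contra hneg
    push Not at hneg
    -- the vector `-(e_j) - t 1` with small `t`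
    have h3 := h1 (fun i => (if i = j then -1 else 0) + (-(-c j / T))) (fun i => by
      have : 0 < -c j / T := div_pos (by linarith) hT0
      change (if i = j then (-1 : ℝ) else 0) + (-(-c j / T)) < 0
      split_ifs <;> linarith)
    rw [hφ] at h3
    have h4 : ∑ i, ((if i = j then (-1 : ℝ) else 0) + (-(-c j / T))) * c i = 0 := by
      simp only [add_mul, Finset.sum_add_distrib, ite_mul, zero_mul, Finset.sum_ite_eq',
        Finset.mem_univ, if_true, ← Finset.mul_sum]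
      rw [← hT]
      field_simp
      ring
    rw [h4] at h3
    linarith
  have hmain : ∀ x y, ‖x‖ ≤ 1 → 0 ≤ ∑ j, v x y j * c j := by
    intro x y hx
    have h3 := h2 (v x y) ⟨Unit, inferInstance, fun _ => x, fun _ => y, fun _ => hx, by simp⟩
    rw [hφ] at h3
    linarith
  refine ⟨M + 1, f, fun j => c j / T, hf, fun j => div_nonneg (hcnn j) hT0.le, ?_, ?_⟩
  · rw [← Finset.sum_div, ← hT, div_self hT0.ne']
  have hunit : ∀ (x : X →L[ℝ] ℝ) (y : E), ‖x‖ ≤ 1 →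
      |Λ (x.smulRight y)| ≤ (1 + ε) * (∑ j, c j / T * |f j y| ^ q) ^ (1 / q) := by
    intro x y hx
    have h3 := hmain x y hx
    have h4 : ∑ j, v x y j * c j = ∑ j, c j * |f j y| ^ q - T * (D * |Λ (x.smulRight y)| ^ q) := by
      simp only [v, sub_mul, Finset.sum_sub_distrib]
      congr 1
      · exact Finset.sum_congr rfl fun j _ => mul_comm _ _
      · rw [← Finset.mul_sum, mul_comm]
    rw [h4] at h3
    have h5 : D * |Λ (x.smulRight y)| ^ q ≤ ∑ j, c j / T * |f j y| ^ q := by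
      have h6 : ∑ j, c j / T * |f j y| ^ q = (∑ j, c j * |f j y| ^ q) / T := by
        rw [Finset.sum_div]
        exact Finset.sum_congr rfl fun j _ => by ring
      rw [h6, le_div_iff₀ hT0]
      linarith
    have h7 : ((1 - δ) * |Λ (x.smulRight y)|) ^ q ≤ ∑ j, c j / T * |f j y| ^ q := by
      rwa [Real.mul_rpow hδ'.le (abs_nonneg _)]
    have h8 : (1 - δ) * |Λ (x.smulRight y)| ≤ (∑ j, c j / T * |f j y| ^ q) ^ (1 / q) := by
      have h9 := Real.rpow_le_rpow (by positivity) h7 (by positivity : (0 : ℝ) ≤ 1 / q)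
      rwa [← Real.rpow_mul (by positivity), one_div, mul_inv_cancel₀ hq0.ne',
        Real.rpow_one, ← one_div] at h9
    rw [hδe] at h8
    rwa [inv_mul_le_iff₀ h1ε] at h8
  intro x y
  rcases eq_or_ne x 0 with rfl | hx
  · have : (0 : X →L[ℝ] ℝ).smulRight y = 0 := by ext z; simp
    rw [this, map_zero, norm_zero, abs_zero]
    simp
  · have hn : 0 < ‖x‖ := norm_pos_iff.2 hx
    have h3 := hunit (‖x‖⁻¹ • x) y (by
      rw [norm_smul, norm_inv, norm_norm, inv_mul_cancel₀ hn.ne'])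
    have h4 : (‖x‖⁻¹ • x).smulRight y = ‖x‖⁻¹ • x.smulRight y := by
      ext z
      simp [smul_smul]
    rw [h4, map_smul, smul_eq_mul, abs_mul, abs_inv, abs_norm, inv_mul_le_iff₀ hn] at h3
    calc |Λ (x.smulRight y)| ≤ ‖x‖ * ((1 + ε) * (∑ j, c j / T * |f j y| ^ q) ^ (1 / q)) := h3
      _ = _ := by ring

end Pool.Agent.Helper51.BAP
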